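import Pool.Agent.X5.LPS.Dig

/-!
# Two representations as a sum of two `k`-th powers: small digit sums in a common base

For `k ≥ 9` no positive integer has two essentially different representations as a sum of two
`k`-th powers of positive integers whose digit sums in a common base `N > 2 H ^ k` are at most `H`,
`2 (H - 1) < k`.
-/

set_option autoImplicit false

namespace Pool.Agent.Results.MP_f8ddab_nt.SmallDigits

theorem result (k : ℕ) (hk : 9 ≤ k) (H N : ℕ) (hH : 2 * (H - 1) < k) (hN : 2 * H ^ k < N)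
    (a b c d : ℕ) (ha : 0 < a ∧ (N.digits a).sum ≤ H) (hb : 0 < b ∧ (N.digits b).sum ≤ H)
    (hc : 0 < c ∧ (N.digits c).sum ≤ H) (hd : 0 < d ∧ (N.digits d).sum ≤ H)
    (he : a ^ k + b ^ k = c ^ k + d ^ k) : (a = c ∧ b = d) ∨ (a = d ∧ b = c) := by
  have hk0 : k ≠ 0 := by omega
  have hinj : ∀ u v : ℕ, u ^ k = v ^ k → u = v := fun u v h => Nat.pow_left_injective hk0 h
  by_cases h1 : a = c
  · subst h1
    exact Or.inl ⟨rfl, hinj _ _ (by omega)⟩
  by_cases h2 : a = d
  · subst h2
    exact Or.inr ⟨rfl, hinj _ _ (by omega)⟩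
  by_cases h3 : b = c
  · subst h3
    exact Or.inr ⟨hinj _ _ (by omega), rfl⟩
  by_cases h4 : b = d
  · subst h4
    exact Or.inl ⟨hinj _ _ (by omega), rfl⟩
  exfalso
  have h := (Pool.Agent.X5.LPS.mainN (k := k) (n := 2) (m := 2) (H := H) (b := N) (by omega)
    (by norm_num; omega) hN hN ![a, b] ![c, d]
    (fun i => by fin_cases i <;> assumption) (fun j => by fin_cases j <;> assumption)
    (by simpa [Fin.sum_univ_two] using he)
    (fun i j => by fin_cases i <;> fin_cases j <;> assumption)).2
  rw [max_self] at h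
  omega

end Pool.Agent.Results.MP_f8ddab_nt.SmallDigits
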